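import Pool.Agent.X26.LF.Stm
set_option autoImplicit false
namespace Pool.Agent.X44.LF
open Finset Pool.Agent.X26.LF

open Classical in
theorem t_STG : S_STG := by
  intro hSM hBAD hCNT m p N hp u v A U hm hNP hF hN hB
  have hp0 : 0 < p := hp.out.pos
  -- the set of good points
  set XX : (Fin N → ZMod p) → Finset (ZMod p) := fun x =>
    (univ.filter (fun i : Fin N => ¬ Bad v p A x i)).image x with hXX
  set B1 : ZMod p → Finset (Fin N → ZMod p) := fun s => univ.filter fun x : Fin N → ZMod p =>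
    ¬ ∃ ι : Fin m ↪ Fin N, ∑ j, (u j : ZMod p) * x (ι j) = s with hB1
  set B2 : ZMod p → Finset (Fin N → ZMod p) := fun s => univ.filter fun x : Fin N → ZMod p =>
    ∃ ι : Fin m ↪ Fin N, ∑ j, (u j : ZMod p) * x (ι j) = s ∧ ∃ j, Bad v p A x (ι j) with hB2
  have h1 : ∀ s, 8 * (B1 s).card ≤ p ^ N := fun s =>
    hSM m p N (fun j => (u j : ZMod p)) s hm hNP.1 hN
  have h2 : ∀ s, 8 * (B2 s).card ≤ p ^ N := by
    intro s
    have h := hBAD hCNT m p N u v A s hm hNP hF
    have h' : p ^ 2 * (8 * (B2 s).card) ≤ p ^ 2 * p ^ N := by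
      calc p ^ 2 * (8 * (B2 s).card) = 8 * (p ^ 2 * (B2 s).card) := by ring
        _ ≤ 8 * (m ^ 2 * 4 ^ m * (A.card + N) ^ (2 * m - 1) * p ^ N) := Nat.mul_le_mul_left _ h
        _ = 8 * (m ^ 2 * 4 ^ m * (A.card + N) ^ (2 * m - 1)) * p ^ N := by ring
        _ ≤ p ^ 2 * p ^ N := Nat.mul_le_mul_right _ hB
    exact Nat.le_of_mul_le_mul_left h' (by positivity)
  have h3 : ∀ x s, ¬ Cov u p (XX x) s → x ∈ B1 s ∨ x ∈ B2 s := by
    intro x s hc
    by_cases h : ∃ ι : Fin m ↪ Fin N, ∑ j, (u j : ZMod p) * x (ι j) = s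
    · right
      obtain ⟨ι, hι⟩ := h
      refine mem_filter.2 ⟨mem_univ _, ι, hι, ?_⟩
      by_contra hcon
      push Not at hcon
      apply hc
      refine ⟨fun j => x (ι j), fun j => ?_, hι⟩
      exact mem_image.2 ⟨ι j, mem_filter.2 ⟨mem_univ _, hcon j⟩, rfl⟩
    · left
      exact mem_filter.2 ⟨mem_univ _, h⟩
  -- averaging
  have hsum : 4 * ∑ x : Fin N → ZMod p, (U.filter fun s => ¬ Cov u p (XX x) s).card ≤
      U.card * p ^ N := by
    have e1 : ∑ x : Fin N → ZMod p, (U.filter fun s => ¬ Cov u p (XX x) s).card ≤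
        ∑ s ∈ U, ((B1 s).card + (B2 s).card) := by
      calc ∑ x : Fin N → ZMod p, (U.filter fun s => ¬ Cov u p (XX x) s).card
          = ∑ x : Fin N → ZMod p, ∑ s ∈ U, (if ¬ Cov u p (XX x) s then 1 else 0) := by
            apply sum_congr rfl
            intro x _
            rw [card_filter]
        _ = ∑ s ∈ U, ∑ x : Fin N → ZMod p, (if ¬ Cov u p (XX x) s then 1 else 0) := sum_comm
        _ = ∑ s ∈ U, (univ.filter fun x : Fin N → ZMod p => ¬ Cov u p (XX x) s).card := by
            apply sum_congr rfl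
            intro s _
            rw [card_filter]
        _ ≤ ∑ s ∈ U, ((B1 s).card + (B2 s).card) := by
            apply sum_le_sum
            intro s _
            refine (card_le_card (t := B1 s ∪ B2 s) ?_).trans (card_union_le _ _)
            intro x hx
            rw [mem_union]
            exact h3 x s (mem_filter.1 hx).2
    have e2 : 8 * ∑ s ∈ U, ((B1 s).card + (B2 s).card) ≤ U.card * (2 * p ^ N) := by
      rw [mul_sum]
      refine (sum_le_card_nsmul U _ (2 * p ^ N) ?_).trans_eq (by simp)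
      intro s _
      have a := h1 s
      have b := h2 s
      omega
    have e3 : U.card * (2 * p ^ N) = 2 * (U.card * p ^ N) := by ring
    omega
  have hex : ∃ x : Fin N → ZMod p, 4 * (U.filter fun s => ¬ Cov u p (XX x) s).card ≤ U.card := by
    by_contra hcon
    push Not at hcon
    have hlt : ∑ x : Fin N → ZMod p, U.card <
        ∑ x : Fin N → ZMod p, 4 * (U.filter fun s => ¬ Cov u p (XX x) s).card :=
      sum_lt_sum_of_nonempty ⟨fun _ => 0, mem_univ _⟩ (fun x _ => hcon x)
    rw [← mul_sum, sum_const, card_univ, Fintype.card_fun, ZMod.card, Fintype.card_fin,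
      smul_eq_mul] at hlt
    have : p ^ N * U.card = U.card * p ^ N := mul_comm _ _
    omega
  obtain ⟨x, hx⟩ := hex
  refine ⟨XX x, ?_, ?_, by omega⟩
  · exact card_image_le.trans ((card_filter_le _ _).trans_eq (by simp))
  · intro K a haK hsumK
    by_cases hL : ∃ k ∈ K, a k ∉ A
    · obtain ⟨k0, hk0, hk0A⟩ := hL
      have hgood : ∀ k ∈ K, a k ∉ A → ∃ i : Fin N, ¬ Bad v p A x i ∧ x i = a k := by
        intro k hk hkA
        rcases mem_union.1 (haK k hk) with h | h
        · exact absurd h hkA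
        · obtain ⟨i, hi, hia⟩ := mem_image.1 h
          exact ⟨i, (mem_filter.1 hi).2, hia⟩
      obtain ⟨i0, hi0, hi0a⟩ := hgood k0 hk0 hk0A
      have hκ : ∀ k, ∃ i : Fin N, (k ∈ K → a k ∉ A → ¬ Bad v p A x i ∧ x i = a k) := by
        intro k
        by_cases hk : k ∈ K ∧ a k ∉ A
        · obtain ⟨i, hi⟩ := hgood k hk.1 hk.2
          exact ⟨i, fun _ _ => hi⟩
        · exact ⟨i0, fun h h' => absurd ⟨h, h'⟩ hk⟩
      choose κ hκ using hκ
      have hbad : Bad v p A x (κ k0) := by
        refine ⟨K.filter (fun k => a k ∈ A), K.filter (fun k => ¬ a k ∈ A), a, κ, ?_, ?_, ?_, ?_⟩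
        · exact disjoint_filter_filter_not K K _
        · intro k hk
          exact (mem_filter.1 hk).2
        · exact ⟨k0, mem_filter.2 ⟨hk0, hk0A⟩, rfl⟩
        · rw [← hsumK, ← sum_filter_add_sum_filter_not K (fun k => a k ∈ A)]
          congr 1
          apply sum_congr rfl
          intro k hk
          rw [mem_filter] at hk
          rw [(hκ k hk.1 hk.2).2]
      exact (hκ k0 hk0 hk0A).1 hbad
    · push Not at hL
      exact hF K a hL hsumK

end Pool.Agent.X44.LF
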